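import Pool.Agent.H15QR.Fin

/-!
# `MP_6980f8_al`: `p`-th roots of a nilpotent quaternionic matrix

Question Q1: for every `n ≥ 1`, every nilpotent `A ∈ M_n(ℍ)` and every positive integer `p`, is the
set `A^{1/p} = {X ∈ M_n(ℍ) : X ^ p = A}` path-connected?  We prove that it is.
-/

set_option autoImplicit false

namespace Pool.Agent.Results.MP_6980f8_al.NilpotentRootsConnected

open Quaternion

/-- For every nilpotent quaternionic matrix `A` and every `p ≥ 1` the set of `p`-th roots of `A`,
if not empty, is path-connected (topology of entries). -/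
theorem result (n : ℕ) (A : Matrix (Fin n) (Fin n) ℍ[ℝ]) (hA : IsNilpotent A) (p : ℕ)
    (hp : 0 < p) (hne : {X : Matrix (Fin n) (Fin n) ℍ[ℝ] | X ^ p = A}.Nonempty) :
    IsPathConnected {X : Matrix (Fin n) (Fin n) ℍ[ℝ] | X ^ p = A} := by
  obtain ⟨X, hX⟩ := hne
  exact ⟨X, hX, fun {Y} hY => Pool.Agent.H15QR.main n A hA p hp X Y hX hY⟩

end Pool.Agent.Results.MP_6980f8_al.NilpotentRootsConnected
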